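import Mathlib

set_option autoImplicit false

/-!
# From the densities of the points to the densities of all the sets
-/

open scoped Classical

namespace Pool.Agent.N945.SLK

open Finset Filter Topology

theorem scheffe {α : Type*} (F : ℕ → Prop) (J : α → ℕ → Prop) (p : α → ℝ)
    (hJ : ∀ n, F n → ∃! a, J a n) (hp : ∀ a, 0 ≤ p a) (hs : HasSum p 1)
    (hlim : ∀ a, Tendsto (fun X : ℕ => (((Icc 1 X).filter fun n => F n ∧ J a n).card : ℝ) /
      (((Icc 1 X).filter fun n => F n).card : ℝ)) atTop (𝓝 (p a))) (A : Set α) :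
    Tendsto (fun X : ℕ => (((Icc 1 X).filter fun n => F n ∧ ∃ a ∈ A, J a n).card : ℝ) /
      (((Icc 1 X).filter fun n => F n).card : ℝ)) atTop (𝓝 (∑' a : A, p a.1)) := by
  -- finite sets
  have hfin : ∀ (S : Finset α) (X : ℕ),
      (((Icc 1 X).filter fun n => F n ∧ ∃ a ∈ S, J a n).card : ℝ) =
        ∑ a ∈ S, (((Icc 1 X).filter fun n => F n ∧ J a n).card : ℝ) := by
    intro S X
    have h1 : ((Icc 1 X).filter fun n => F n ∧ ∃ a ∈ S, J a n) =
        S.biUnion fun a => (Icc 1 X).filter fun n => F n ∧ J a n := by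
      ext n
      simp only [mem_filter, mem_biUnion]
      constructor
      · rintro ⟨h1, h2, a, h3, h4⟩
        exact ⟨a, h3, h1, h2, h4⟩
      · rintro ⟨a, h3, h1, h2, h4⟩
        exact ⟨h1, h2, a, h3, h4⟩
    rw [h1, card_biUnion]
    · push_cast
      rfl
    · intro a _ b _ hab
      show Disjoint ((Icc 1 X).filter fun n => F n ∧ J a n) ((Icc 1 X).filter fun n => F n ∧ J b n)
      rw [Finset.disjoint_left]
      intro n h2 h3
      rw [mem_filter] at h2 h3
      exact hab ((hJ n h2.2.1).unique h2.2.2 h3.2.2)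
  have hS : ∀ S : Finset α, Tendsto (fun X : ℕ =>
      (((Icc 1 X).filter fun n => F n ∧ ∃ a ∈ S, J a n).card : ℝ) /
      (((Icc 1 X).filter fun n => F n).card : ℝ)) atTop (𝓝 (∑ a ∈ S, p a)) := by
    intro S
    have h1 := tendsto_finsetSum S fun a _ => hlim a
    refine h1.congr fun X => ?_
    rw [hfin, Finset.sum_div]
  -- the number of all
  have hpos : ∀ᶠ X : ℕ in atTop, 0 < (((Icc 1 X).filter fun n => F n).card : ℝ) := by
    obtain ⟨a, ha⟩ : ∃ a, 0 < p a := by
      by_contra h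
      push Not at h
      have h0 : p = 0 := funext fun a => le_antisymm (h a) (hp a)
      rw [h0] at hs
      exact zero_ne_one (hasSum_zero.unique hs)
    have h1 := (tendsto_order.1 (hlim a)).1 0 ha
    filter_upwards [h1] with X hX
    rcases (Nat.cast_nonneg (α := ℝ) ((Icc 1 X).filter fun n => F n).card).lt_or_eq with h2 | h2
    · exact h2
    · rw [← h2, div_zero] at hX
      exact absurd hX (lt_irrefl 0)
  rw [Metric.tendsto_nhds]
  intro ε hε
  obtain ⟨S, hSε⟩ := ((tendsto_order.1 hs).1 (1 - ε / 3) (by linarith)).exists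
  have hSε' : 1 - ε / 3 < ∑ a ∈ S, p a := hSε
  have hsplit : ∑ a ∈ S.filter (fun a => a ∈ A), p a + ∑ a ∈ S.filter (fun a => a ∉ A), p a =
      ∑ a ∈ S, p a := Finset.sum_filter_add_sum_filter_not _ _ _
  have e1 : ∑' a : A, p a.1 = ∑' a, A.indicator p a := tsum_subtype A p
  have b1 : ∑ a ∈ S.filter (fun a => a ∈ A), p a ≤ ∑' a : A, p a.1 := by
    rw [e1]
    have h1 : ∑ a ∈ S.filter (fun a => a ∈ A), p a =
        ∑ a ∈ S.filter (fun a => a ∈ A), A.indicator p a := by
      refine Finset.sum_congr rfl fun a ha => ?_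
      rw [Set.indicator_of_mem (mem_filter.1 ha).2]
    rw [h1]
    exact (hs.summable.indicator A).sum_le_tsum _ fun a _ => Set.indicator_nonneg (fun a _ => hp a) a
  have b2 : ∑ a ∈ S.filter (fun a => a ∉ A), p a ≤ ∑' a, Aᶜ.indicator p a := by
    have h1 : ∑ a ∈ S.filter (fun a => a ∉ A), p a =
        ∑ a ∈ S.filter (fun a => a ∉ A), Aᶜ.indicator p a := by
      refine Finset.sum_congr rfl fun a ha => ?_
      rw [Set.indicator_of_mem (show a ∈ Aᶜ from (mem_filter.1 ha).2)]
    rw [h1]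
    exact (hs.summable.indicator Aᶜ).sum_le_tsum _
      fun a _ => Set.indicator_nonneg (fun a _ => hp a) a
  have b3 : ∑' a, A.indicator p a + ∑' a, Aᶜ.indicator p a = 1 := by
    rw [← (hs.summable.indicator A).tsum_add (hs.summable.indicator Aᶜ), ← hs.tsum_eq]
    refine tsum_congr fun a => ?_
    exact congrFun (Set.indicator_self_add_compl A p) a
  have c1 := Metric.tendsto_nhds.1 (hS (S.filter fun a => a ∈ A)) (ε / 3) (by linarith)
  have c2 := Metric.tendsto_nhds.1 (hS (S.filter fun a => a ∉ A)) (ε / 3) (by linarith)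
  filter_upwards [hpos, c1, c2] with X hX d1 d2
  rw [Real.dist_eq, abs_lt] at d1 d2 ⊢
  have f1 : (((Icc 1 X).filter fun n => F n ∧ ∃ a ∈ S.filter (fun a => a ∈ A), J a n).card : ℝ) /
      (((Icc 1 X).filter fun n => F n).card : ℝ) ≤
      (((Icc 1 X).filter fun n => F n ∧ ∃ a ∈ A, J a n).card : ℝ) /
      (((Icc 1 X).filter fun n => F n).card : ℝ) := by
    apply div_le_div_of_nonneg_right _ hX.le
    have : ((Icc 1 X).filter fun n => F n ∧ ∃ a ∈ S.filter (fun a => a ∈ A), J a n) ⊆
        (Icc 1 X).filter fun n => F n ∧ ∃ a ∈ A, J a n := by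
      intro n hn
      rw [mem_filter] at hn ⊢
      obtain ⟨h1, h2, a, h3, h4⟩ := hn
      exact ⟨h1, h2, a, (mem_filter.1 h3).2, h4⟩
    exact_mod_cast card_le_card this
  have f2 : (((Icc 1 X).filter fun n => F n ∧ ∃ a ∈ A, J a n).card : ℝ) /
      (((Icc 1 X).filter fun n => F n).card : ℝ) +
      (((Icc 1 X).filter fun n => F n ∧ ∃ a ∈ S.filter (fun a => a ∉ A), J a n).card : ℝ) /
      (((Icc 1 X).filter fun n => F n).card : ℝ) ≤ 1 := by
    rw [← add_div, div_le_one hX]
    have hdis : Disjoint ((Icc 1 X).filter fun n => F n ∧ ∃ a ∈ A, J a n)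
        ((Icc 1 X).filter fun n => F n ∧ ∃ a ∈ S.filter (fun a => a ∉ A), J a n) := by
      rw [Finset.disjoint_left]
      intro n h1 h2
      rw [mem_filter] at h1 h2
      obtain ⟨-, h3, a, ha, h4⟩ := h1
      obtain ⟨-, -, b, hb, h5⟩ := h2
      have hab := (hJ n h3).unique h4 h5
      rw [hab] at ha
      exact (mem_filter.1 hb).2 ha
    have hsub : ((Icc 1 X).filter fun n => F n ∧ ∃ a ∈ A, J a n) ∪
        ((Icc 1 X).filter fun n => F n ∧ ∃ a ∈ S.filter (fun a => a ∉ A), J a n) ⊆
        (Icc 1 X).filter fun n => F n := by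
      intro n hn
      rw [mem_union, mem_filter, mem_filter] at hn
      rw [mem_filter]
      rcases hn with h | h
      · exact ⟨h.1, h.2.1⟩
      · exact ⟨h.1, h.2.1⟩
    have := card_le_card hsub
    rw [card_union_of_disjoint hdis] at this
    exact_mod_cast this
  constructor <;> linarith [d1.1, d1.2, d2.1, d2.2]

end Pool.Agent.N945.SLK
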