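import Pool.Agent.N637.SLK.Lin
import Pool.Agent.N637.SLX.Stm3
import Pool.Agent.N945.SLK.Scheffe

set_option autoImplicit false

/-!
# SLX/SCH and SLK/SCH: from the densities of the points to the densities of all the sets
-/

namespace Pool.Agent.N945.SLK

theorem t_SCH : Pool.Agent.N637.SLK.S_SCH :=
  fun _ _ F J p hJ hp hs hlim A => scheffe F J p hJ hp hs hlim A

theorem t_SCHX : Pool.Agent.N637.SLX.S_SCH :=
  fun F J p hJ hp hs hlim A => scheffe F J p hJ hp hs hlim A

end Pool.Agent.N945.SLK
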